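import Pool.Agent.Run7.h954.DR.Main

/-!
# Density of the regulator and complements of cubic hypersurfaces

`T` consists of groups `H^i_M(X, ℚ(j))`, topological groups `H^i_H(X, ℚ(j))` and regulators between them, with the
known properties `IsRegulator T` (isomorphisms, open and closed subschemes, Jouanolou's device, Gysin sequences of
smooth closed subschemes of affine spaces, density for `Spec ℂ`).

The density of the images of the regulators (a property which is not compatible with exact sequences) for all
smooth schemes over number fields and all `i, j` is equivalent to the density for the complements of smooth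
hypersurfaces `F = 0` in affine spaces, for integral polynomials `F` of degree at most three, in the bidegrees of
any cofinal set `W`; for example with `i - j ≥ B` and for `K_e`, `e = 2 j - i ≥ B`, only. Moreover the density for
one scheme and one bidegree `(i, j)` is equivalent to the density for one such complement in the bidegree
`(i + 2 c, j + c + 1)`, for all large `c`.
-/

set_option autoImplicit false

universe u

namespace Pool.Agent.Results.MP_b2b689_ag.CubicComplements

open Pool.Agent.Run7.h954.DR

theorem result (T : Theory.{u}) (hT : IsRegulator T) :
    -- the conjecture is equivalent to its case of complements of cubic hypersurfaces, bidegrees in `W`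
    (∀ W : Set (ℤ × ℤ), Cofinal W →
      ((∀ X, OverNumberField X → ∀ i j, T.Dense i j X) ↔
        ∀ (n : ℕ) (F : MvPolynomial (Fin n) ℤ), SmoothCubic F → ∀ i j, (i, j) ∈ W →
          T.Dense i j (Compl F))) ∧
    -- an example of a cofinal set
    (∀ B : ℤ, Cofinal {p | B ≤ p.1 - p.2 ∧ B ≤ 2 * p.2 - p.1}) ∧
    -- one scheme, one bidegree
    (∀ Y, SmoothVar Y → ∀ i j : ℤ, ∃ n₀ : ℕ, ∀ c : ℕ, n₀ ≤ c → ∃ (n : ℕ) (F : MvPolynomial (Fin n) ℤ),
      SmoothCubic F ∧ (T.Dense i j (Cx Y) ↔ T.Dense (i + 2 * c) (j + c + 1) (Compl F))) :=
  ⟨fun _ hW => main hT hW, cofinal_large, fun _ hY i j => exists_cubic hT hY i j⟩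

end Pool.Agent.Results.MP_b2b689_ag.CubicComplements
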