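import Pool.Agent.Run7.h153.PC.Defect
import Pool.Agent.Y94.R.Asm
import Pool.Agent.N76.LP.All
import Pool.Agent.N76.SR.Fin

set_option autoImplicit false

/-!
Density of the regulator `H²(X, ℚ(2)) → H²_H(X, ℚ(2)) = H¹(X, ℂ/ℚ(2))` for the hyperelliptic curves `X : y² = D(x)` of
genus `g` for which the difference of the two points at infinity is torsion, that is, for which the Pell equation
`P² - D Q² = 1` has a solution with nonconstant `P`: the real span of the regulators of `K_2(X) ⊗ ℚ` has real codimension
at most the *defect* of `P` in `H¹(X, ℝ(1))` (of real dimension `2 g`). In particular the image is dense if the defect is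
zero.

The starting result `MP_b2b689_ag.PellHyperelliptic` has the bound `k`, the number of the critical values of `P` that are
real and not in `[-1, 1]`, so that density was known if there are no such critical values. The defect is never larger than
`k` and almost always zero: it is the largest number of critical points `ζ` with `|A(ζ)| > 1` of a real polynomial `A` such
that `P = A ∘ u` and such that all points with values of `A` in `(-1, 1)` are real, which is the genus of the totally real
curve `v² = A(u)² - 1` covered by `X` from which the unit `z = P + Q y` comes. For example the defect is zero, and the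
regulator has dense image, for all `P` which are not of the form `A ∘ u` with such an `A` of degree at least two, whatever
their critical values are.
-/

namespace Pool.Agent.Results.MP_b2b689_ag.DefectOfPellCurves

open Polynomial

open Pool.Agent.TH826.MK (KQ symb Torus)

open Pool.Agent.TH826.HD (UnramifiedOver)

open Pool.Agent.Y94.R

open Pool.Agent.Run7.h153.PC (defect)

open Pool.Agent.N76.SR (TTr NL)

open scoped Classical in
/-- Let `D` be a squarefree complex polynomial of degree `2 g + 2`, let `P² - D Q² = 1`, where `P` is not constant, and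
let `P' = r Q`. Let `k` be the defect of `P`: the largest number of the critical points `ζ`, with multiplicities, with
`|A(ζ)| > 1` of a real polynomial `A` with `P = A ∘ u` for some `u` such that all points of `ℂ` at which `A` has a value in
`(-1, 1)` are real. The coordinate ring of the affine curve `y² = D(x)` is a domain, the curve is smooth, and `k` is at
most the number of the roots `β` of `r`, counted with multiplicities, such that `P(β)` is real and `|P(β)| > 1`, which is
at most `g`.

There are `2 g` loops `γ_l = (x_l, y_l)` in the complex points of the curve with `y_l ≠ 0`, whose period vectors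
`(∫ x^j dx / y)_{j < g}` are linearly independent over `ℝ`, and such that `P(x_l)` takes only finitely many values in the
real interval `(-1, 1)`.

Let `γ_l`, `1 ≤ l ≤ m`, be any loops with linearly independent period vectors with this property, and let `n = m - k`.
Then there are `n + 1` complex numbers `b_i` such that all `2 P(b_i)` are sums `ζ + 1/ζ` with roots of unity `ζ`, such that
the symbols `{P(x) + Q(x) y, (x - b_i) / (x - b_j)}` on the open part `∏ (x - b_i) ≠ 0` are unramified at all discrete
valuations of the function field that are trivial on `ℂ`, and such that the `n` vectors of the regulators of the symbols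
`{P(x) + Q(x) y, (x - b_i) / (x - b_0)}`, `1 ≤ i ≤ n`, on the loops are linearly independent over `ℝ`. (For `m = 2 g` the
regulators span a subspace of `H¹(X, ℝ(1))` of codimension at most `k`.) -/
theorem result.{u} (g : ℕ) (D P Q r : ℂ[X]) (hD : Squarefree D) (hdeg : D.natDegree = 2 * g + 2)
    (hPQ : P ^ 2 - D * Q ^ 2 = 1) (hP : 0 < P.natDegree) (hr : derivative P = r * Q) :
    IsDomain (HRing D) ∧
    (∀ x y : ℂ, y ^ 2 = D.eval x → 2 * y ≠ 0 ∨ (derivative D).eval x ≠ 0) ∧
    defect P ≤ Multiset.card (r.roots.filter fun β => (P.eval β).im = 0 ∧ 1 < |(P.eval β).re|) ∧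
    Multiset.card (r.roots.filter fun β => (P.eval β).im = 0 ∧ 1 < |(P.eval β).re|) ≤ g ∧
    (∃ γ : Fin (2 * g) → Lp D,
      (LinearIndependent ℝ fun (l : Fin (2 * g)) (j : Fin g) =>
        ∫ t in (0 : ℝ)..1, (γ l).x t ^ (j : ℕ) * deriv (γ l).x t / (γ l).y t) ∧
      {τ : ℝ | |τ| < 1 ∧ ∃ l t, P.eval ((γ l).x t) = (τ : ℂ)}.Finite) ∧
    ∀ (m n : ℕ), n + defect P = m → ∀ γ : Fin m → Lp D,
      (LinearIndependent ℝ fun (l : Fin m) (j : Fin g) =>
        ∫ t in (0 : ℝ)..1, (γ l).x t ^ (j : ℕ) * deriv (γ l).x t / (γ l).y t) →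
      {τ : ℝ | |τ| < 1 ∧ ∃ l t, P.eval ((γ l).x t) = (τ : ℂ)}.Finite →
      ∃ b : Fin (n + 1) → ℂ,
        (∀ i, ∃ (ζ : ℂ) (N : ℕ), N ≠ 0 ∧ ζ ^ N = 1 ∧ 2 * P.eval (b i) = ζ + ζ⁻¹) ∧
        (∀ (L : Type u) [Field L] [Algebra (HRing D) L] [IsFractionRing (HRing D) L],
          ∃ f : HOpen D b →+* L,
            (∀ a : HRing D, f (toH D b a) = algebraMap (HRing D) L a) ∧
            ∀ i j, KQ.map 2 f (symb (hent b hPQ i j)) ∈ UnramifiedOver (f.comp (hcst D b)) 2) ∧
        ∃ Γ : Fin m → Torus (HOpen D b) 1,
          (∀ l θ, (∀ c : ℂ, (Γ l).e θ (hcst D b c) = c) ∧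
            (Γ l).e θ (toH D b (hpol D X)) = (γ l).x (θ 0) ∧
            (Γ l).e θ (toH D b (hy D)) = (γ l).y (θ 0)) ∧
          LinearIndependent ℝ fun (i : Fin n) (l : Fin m) => (Γ l).reg (symb (hent b hPQ i.succ 0)) := by
  have h : Pell D P Q r := ⟨hPQ, hr, hP⟩
  have hrg := h.natDegree_r hdeg
  refine ⟨isDomain_HRing hD (by omega), ?_, Pool.Agent.Run7.h153.PC.defect_le h, ?_, ?_, ?_⟩
  · intro x y hxy
    by_contra hcon
    push Not at hcon
    obtain ⟨h1, h2⟩ := hcon
    have h3 : y = 0 := by simpa using h1
    rw [h3, zero_pow two_ne_zero] at hxy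
    obtain ⟨D1, hD1⟩ := dvd_iff_isRoot.2 (show D.IsRoot x from hxy.symm)
    have h4 : (X - C x) * (X - C x) ∣ D := by
      rw [hD1]
      refine mul_dvd_mul_left _ ?_
      rw [dvd_iff_isRoot]
      rw [hD1, derivative_mul] at h2
      simpa using h2
    exact Polynomial.not_isUnit_X_sub_C x (hD _ h4)
  · refine (Multiset.card_le_card (Multiset.filter_le _ _)).trans ?_
    rw [← hrg]
    exact card_roots' r
  · obtain ⟨γ, h1, -, h3⟩ := Pool.Agent.N76.LP.exists_loops (g := g) hD hdeg hP h.r_ne
    exact ⟨γ, h1, h3⟩
  · intro m n hn γ hind hfin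
    have hid : ∀ p : ℂ[X], p.map (RingHom.id ℂ) = p := fun p => Polynomial.map_id
    have hTf : {t : ℝ | |t| < 1 ∧ t ∉ TTr γ P}.Finite := Pool.Agent.N76.SR.TTr_cofinite γ hP hfin
    obtain ⟨t, ht⟩ := Pool.Agent.N76.SR.TTr_nonempty γ hTf
    obtain ⟨b₀, hb₀⟩ := Spc_nonempty γ h (P := P) ⟨t, ht.1, fun b hb => (ht.2 b hb).2⟩
    have hle : Ann (Spc γ P) (vec γ P Q) b₀ ≤ NL γ P r := by
      intro c hc t ht b hb
      have hrb : r.eval b ≠ 0 := by
        intro h0
        refine (ht.2 b hb).1 ?_
        rw [h.der, eval_mul, h0, zero_mul]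
      exact (real_of_const γ c h _ (const_of_mem γ hc) (ht.2 b hb).2 ht.1 hb hrb).1
    have hNL : Module.finrank ℝ (NL γ P r) ≤ defect P :=
      Pool.Agent.Run7.h153.PC.finrank_NL_le γ hD h hTf (fun c hc => by
        rw [hrg]
        exact periods γ hind c hc) fun A u h1 h2 => Pool.Agent.Run7.h153.PC.outer_le_defect h h1 h2
    obtain ⟨b, hb, hli⟩ := exists_indep (Spc γ P) (vec γ P Q) b₀ hn
      ((Submodule.finrank_mono hle).trans hNL)
    set b' : Fin (n + 1) → ℂ := Fin.cons b₀ b with hb'
    have hS : ∀ k, b' k ∈ Spc γ P := fun k => by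
      refine Fin.cases ?_ (fun j => ?_) k
      · exact hb₀
      · exact hb j
    have hli' : LinearIndependent ℝ fun k : Fin n => fun l =>
        (γ l).rho P Q (b' k.succ) - (γ l).rho P Q (b' 0) := by
      have h3 : (fun k : Fin n => fun l => (γ l).rho P Q (b' k.succ) - (γ l).rho P Q (b' 0)) =
          fun j => vec γ P Q (b j) - vec γ P Q b₀ := by
        funext j l
        rw [hb', Fin.cons_succ, Fin.cons_zero]
        rfl
      rw [h3]
      exact hli
    refine ⟨b', fun i => (hS i).2, ?_, ?_⟩
    · intro L _ _ _
      have hinj : Function.Injective (algebraMap (HRing D) L) := IsFractionRing.injective _ _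
      have hne : algebraMap (HRing D) L (hDel D b') ≠ 0 := by
        rw [Ne, map_eq_zero_iff _ hinj]
        exact hDel_ne_zero b'
      exact ⟨liftH (algebraMap (HRing D) L) hne, fun a => liftH_toH _ _ _,
        fun i j => hsymb_unramifiedOver hPQ b' _ i j fun i => (hS i).2⟩
    · have hp : Pell (D.map (RingHom.id ℂ)) (P.map (RingHom.id ℂ)) (Q.map (RingHom.id ℂ))
          (r.map (RingHom.id ℂ)) := by
        rw [hid, hid, hid, hid]
        exact h
      exact exists_tori (RingHom.id ℂ) hPQ hp (fun l =>
        ⟨(γ l).x, (γ l).y, (γ l).contDiff_x, (γ l).contDiff_y, (γ l).periodic_x,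
          (γ l).periodic_y, by rw [hid]; exact (γ l).eq, (γ l).ne⟩) b'
        (fun k l => (hS k).1 l) (by
          unfold Lp.rho Lp.z at hli' ⊢
          simp only [hid]
          exact hli')

end Pool.Agent.Results.MP_b2b689_ag.DefectOfPellCurves
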