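import Pool.Agent.Run7.h184.REG.Main

/-!
# Density of the regulators of all powers of a variety: dense for all powers, or far from dense

Let `X` be a smooth projective variety over `ℂ` that can be defined over a number field, and `m ≥ 1` an
integer (the index of the `K`-group).  Suppose that `X` satisfies the sign conjecture `C⁺`: the projector
of the cohomology of `X` to its even part is algebraic (known for curves, surfaces, abelian varieties,
complete intersections, and products of such varieties).  Let `b` be the sum of the Betti numbers of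
`X`.  For every smooth projective variety `Y` over `ℂ` let

* `Q(Y)` be the sum of the groups `H^(2 j - m)_M(Y, ℚ(j))` over all `j` (that is, of the groups
  `H^i_M(Y, ℚ(j))` of the problem with `2 j - i = m`, or `K_m(Y) ⊗ ℚ`), and `M(Y) = Q(Y) ⊗ ℝ`,
* `D(Y)` be the sum of the spaces `H^(i - 1)(Y, ℂ) / (H^(i - 1)(Y, ℝ(j)) + F^j)`, `i = 2 j - m`.  This is
  the largest Hausdorff quotient of the sum of the groups `J^(i, j)(Y)` of the problem, and
  `Hg^(i, j)(Y) = 0`: the closure of zero in `J^(i, j)(Y)` is the image of `H^(i - 1)(Y, ℝ(j))`,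
* `r : M(Y) → D(Y)` be induced by Beilinson's regulators, and `codim(Y)` the dimension of the
  quotient of `D(Y)` by the closure of `r(Q(Y))` (which is the real subspace `r(M(Y))`).

So `Density` for `Y` (`r(Q(Y))` is dense in `D(Y)`) is the statement Q1 for `Y` and all `i`, `j` with
`2 j - i = m`.  Let `ρ(n)` be the rank of the group of all cycles on `X ^ n` modulo numerical
equivalence.

Theorem.

1. (Law.)  The quotients of `dim D(X ^ n)` and of `codim(X ^ n)` by `ρ(n)` converge for `n → ∞` to
   elements `Ndel`, `Ncok` of `{0, 1, 2, …, ∞}`, `Ncok ≤ Ndel`, and `Ncok = 0` if and only if the regulators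
   have dense image for ALL powers of `X` (and all `i`, `j` with `2 j - i = m`).
2. (Gap.)  If the image is not dense for one power `X ^ a`, then for ALL `n` with
   `2 n ≥ 128 (a + 1) ^ 2 b ^ (2 a + 6)` the number `codim(X ^ (2 n))` is at least `ρ(2 n) / 2` and at least
   `b ^ (2 n) / (2 (n + 1) ^ (b ^ 2))`.  So a single inequality for one explicit large power implies
   that the image is dense for `X ^ a`.

The setting.  `C` is the category of the smooth projective varieties over `ℂ` with the groups
`CH^*(Y × Z) ⊗ ℝ` (all codimensions) as morphisms, a rigid symmetric monoidal category, `T = h(X)`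
is self-dual, `tp T n = h(X ^ n)`, `R` is the singular cohomology with complex coefficients.
The structures `TrivialIdeal` and `Regulator` (in `Pool/Agent/Run7/h184/AJ/Defs.lean` and
`Pool/Agent/Run7/h184/REG/Defs.lean`) record what is used: homologically trivial correspondences form a
tensor ideal and act as zero on `D(Y)` (a functor of the Hodge structures of `Y`), and the
regulator is compatible with correspondences.  `RationalPart` is the rational subspace `Q(Y)` of
`M(Y) = Q(Y) ⊗ ℝ`.

Proof.  The law of the dimensions of the values of additive functors on the powers of `X` (`N64/AF` in the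
starting tree) is applied to the functor of the cokernels; the closure of a rational subspace of a real
vector space of finite dimension is a real subspace.
-/

set_option autoImplicit false

open CategoryTheory MonoidalCategory
open Pool.Agent.Y112.SR Pool.Agent.Y112.KD Pool.Agent.N64.AF Pool.Agent.Run7.h184.AJ
open Pool.Agent.Run7.h184.REG

namespace Pool.Agent.Results.MP_b2b689_ag.DensityOnPowers

universe v u w

section density

variable {V : Type*} [AddCommGroup V] [Module ℝ V] {d : ℕ}

/-- the image of a rational subspace that spans `V` is dense if and only if the map is onto -/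
theorem dense_iff (f : V →ₗ[ℝ] (Fin d → ℝ)) (S : AddSubgroup V)
    (hS : ∀ (q : ℚ) (x : V), x ∈ S → (q : ℝ) • x ∈ S)
    (hspan : Submodule.span ℝ (S : Set V) = ⊤) :
    Dense (f '' (S : Set V)) ↔ Function.Surjective f := by
  constructor
  · intro h
    have h1 : (f '' (S : Set V)) ⊆ (LinearMap.range f : Set (Fin d → ℝ)) := by
      rintro _ ⟨x, -, rfl⟩
      exact ⟨x, rfl⟩
    have h2 : IsClosed (LinearMap.range f : Set (Fin d → ℝ)) :=
      Submodule.closed_of_finiteDimensional _
    have h3 : (LinearMap.range f : Set (Fin d → ℝ)) = Set.univ := by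
      rw [Set.eq_univ_iff_forall]
      intro y
      exact h2.closure_subset_iff.2 h1 (h y)
    rw [← LinearMap.range_eq_top]
    exact SetLike.coe_injective h3
  · intro h
    have h1 : ∀ (t : ℝ) (y : Fin d → ℝ), y ∈ closure (f '' (S : Set V)) →
        t • y ∈ closure (f '' (S : Set V)) := by
      intro t y hy
      have h2 : ∀ x ∈ f '' (S : Set V), t • x ∈ closure (f '' (S : Set V)) := by
        rintro _ ⟨x, hx, rfl⟩
        have h3 : t ∈ closure (Set.range (Rat.cast : ℚ → ℝ)) := Rat.denseRange_cast t
        have h4 : Continuous fun s : ℝ => s • f x := continuous_id.smul continuous_const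
        refine closure_mono ?_ (image_closure_subset_closure_image h4 ⟨t, h3, rfl⟩)
        rintro _ ⟨_, ⟨q, rfl⟩, rfl⟩
        exact ⟨(q : ℝ) • x, hS q x hx, by rw [map_smul]⟩
      have h5 : Continuous fun z : Fin d → ℝ => t • z := continuous_const_smul t
      have h6 := image_closure_subset_closure_image h5 ⟨y, hy, rfl⟩
      refine (isClosed_closure.closure_subset_iff.2 ?_) h6
      rintro _ ⟨z, hz, rfl⟩
      exact h2 z hz
    have h2 : ∀ x y : Fin d → ℝ, x ∈ closure (f '' (S : Set V)) →
        y ∈ closure (f '' (S : Set V)) → x + y ∈ closure (f '' (S : Set V)) := by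
      intro x y hx hy
      have h3 : f '' (S : Set V) = ((S.map f.toAddMonoidHom : AddSubgroup (Fin d → ℝ)) :
        Set (Fin d → ℝ)) := rfl
      rw [h3] at hx hy ⊢
      exact (S.map f.toAddMonoidHom).topologicalClosure.add_mem hx hy
    let P : Submodule ℝ (Fin d → ℝ) :=
      { carrier := closure (f '' (S : Set V))
        add_mem' := fun {x y} hx hy => h2 x y hx hy
        zero_mem' := subset_closure ⟨0, S.zero_mem, map_zero f⟩
        smul_mem' := fun t y hy => h1 t y hy }
    intro y
    obtain ⟨x, rfl⟩ := h y
    have h3 : x ∈ Submodule.span ℝ (S : Set V) := by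
      rw [hspan]
      trivial
    have h4 : Submodule.span ℝ (S : Set V) ≤ P.comap f := by
      rw [Submodule.span_le]
      intro z hz
      exact subset_closure ⟨z, hz, rfl⟩
    exact h4 h3

end density

variable {C : Type u} [Category.{v} C] [Preadditive C] [MonoidalCategory C] [SymmetricCategory C]

/-- The rational subspaces `Q(Y)` of the spaces `M(Y) = Q(Y) ⊗ ℝ`; the spaces `D(Y)` have finite
dimension. -/
structure RationalPart [Linear ℝ C] {K : Type w} [Field K] {R : SuperRealisation C K}
    {I : TrivialIdeal ℝ R} (A : Regulator I) where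
  /-- the rational subspace -/
  Q : ∀ Y : C, AddSubgroup (A.M.obj Y)
  smul_mem : ∀ (Y : C) (q : ℚ) (x : A.M.obj Y), x ∈ Q Y → (q : ℝ) • x ∈ Q Y
  span : ∀ Y : C, Submodule.span ℝ (Q Y : Set (A.M.obj Y)) = ⊤
  finite : ∀ Y : C, Module.Finite ℝ (A.D.obj Y)

/-- The image of `Q(Y)` is dense in `D(Y)`, for the topology of a real vector space of finite
dimension. -/
def RationalPart.Density [Linear ℝ C] {K : Type w} [Field K] {R : SuperRealisation C K}
    {I : TrivialIdeal ℝ R} {A : Regulator I} (B : RationalPart A) (Y : C) : Prop :=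
  ∀ (d : ℕ) (e : A.D.obj Y ≃ₗ[ℝ] (Fin d → ℝ)),
    Dense ((fun x : A.M.obj Y => e (A.r.app Y x)) '' (B.Q Y : Set (A.M.obj Y)))

theorem RationalPart.density_iff [Linear ℝ C] {K : Type w} [Field K] {R : SuperRealisation C K}
    {I : TrivialIdeal ℝ R} {A : Regulator I} (B : RationalPart A) (Y : C) :
    B.Density Y ↔ A.Onto Y := by
  have key : ∀ (d : ℕ) (e : A.D.obj Y ≃ₗ[ℝ] (Fin d → ℝ)),
      Dense ((fun x : A.M.obj Y => e (A.r.app Y x)) '' (B.Q Y : Set (A.M.obj Y))) ↔ A.Onto Y := by
    intro d e
    rw [show (fun x : A.M.obj Y => e (A.r.app Y x)) =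
      ((e : A.D.obj Y →ₗ[ℝ] (Fin d → ℝ)).comp (A.r.app Y).hom) from rfl,
      dense_iff _ (B.Q Y) (fun q x hx => B.smul_mem Y q x hx) (B.span Y)]
    constructor
    · intro h y
      obtain ⟨x, hx⟩ := h (e y)
      exact ⟨x, e.injective hx⟩
    · intro h z
      obtain ⟨x, hx⟩ := h (e.symm z)
      refine ⟨x, ?_⟩
      change e (A.r.app Y x) = z
      rw [hx, e.apply_symm_apply]
  have := B.finite Y
  constructor
  · intro h
    exact (key _ (LinearEquiv.ofFinrankEq (A.D.obj Y)
      (Fin (Module.finrank ℝ (A.D.obj Y)) → ℝ) (by simp))).1 (h _ _)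
  · intro h d e
    exact (key d e).2 h

/-- The regulators of all powers of a variety: the law of the codimensions of the closures of the
images, and the gap. -/
theorem result [MonoidalPreadditive C] [RightRigidCategory C] [Linear ℝ C] [MonoidalLinear ℝ C]
    {K : Type w} [Field K] [IsAlgClosed K] [Algebra ℝ K] {R : SuperRealisation C K}
    {I : TrivialIdeal ℝ R} (A : Regulator I) (B : RationalPart A) (T : C) [ExactPairing T T]
    (h : IsPow ℝ R T) :
    (∃ Ndel Ncok : ℕ∞, RatioTo ℝ T (fun n => dimE ℝ (A.D.obj (tp T n))) Ndel ∧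
      RatioTo ℝ T (fun n => cokerDim A.r (tp T n)) Ncok ∧ Ncok ≤ Ndel ∧
      (Ncok = 0 ↔ ∀ n, B.Density (tp T n))) ∧
    ∀ a n : ℕ, 128 * (a + 1) ^ 2 * bt R T ^ (2 * a + 6) ≤ 2 * n →
      ¬ B.Density (tp T a) → Large ℝ R T n (cokerDim A.r (tp T (2 * n))) := by
  obtain ⟨⟨Nmot, Ndel, Nker, Ncok, -, h1, h2, h3, h4, -, h5, -⟩, h6⟩ := A.main h
  refine ⟨⟨Ndel, Ncok, h1, h3, ?_, ?_⟩, fun a n hn hd => (h6 a n hn).2 fun h7 =>
    hd ((B.density_iff _).2 h7)⟩
  · have h7 : ∀ n, ((cokerDim A.r (tp T n) : ℕ∞) : ENNReal) / numRank ℝ (tp T n) ≤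
        ((dimE ℝ (A.D.obj (tp T n)) : ℕ∞) : ENNReal) / numRank ℝ (tp T n) := fun n =>
      ENNReal.div_le_div_right (ENat.toENNReal_mono (Cardinal.toENat.monotone'
        (rank_quotient_le _))) _
    exact ENat.toENNReal_le.1 (le_of_tendsto_of_tendsto' h3 h1 h7)
  · rw [h5]
    exact forall_congr' fun n => (B.density_iff _).symm

end Pool.Agent.Results.MP_b2b689_ag.DensityOnPowers
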