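import Pool.Agent.Run7.h153.EE.Den
import Pool.Agent.Run7.h298.EE.D
import Pool.Agent.Run7.h298.EE.H

set_option autoImplicit false

/-!
Density of the regulator `H³(X, ℚ(2)) = K_1(X)^(2) → H³_H(X, ℚ(2)) = H²(X, ℂ) / (H²(X, ℚ(2)) + F²)` for all products
`X = E₁ × E₂` of two elliptic curves.

The closure of zero in `J^{3,2}(X) = H²(X, ℂ) / (H²(X, ℚ(2)) + F²)` is the image of `H²(X, ℝ(2))`, and the quotient by it is
`H^{1,1}(X) ∩ H²(X, ℝ(1))`, of real dimension four, on which the regulator of a class `∑ (C_α, f_α)` (curves `C_α` on `X`,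
rational functions `f_α` on them, `∑ div f_α = 0`) is the linear form `ω ↦ ∑ ∫_{C_α} log|f_α| ω` (up to a factor) on the
`(1,1)`-forms. The classes `(E₁ × pt, c)` and `(pt × E₂, c)`, `c ∈ ℂ*`, give the two classes of the factors. There remains
the real part of `H^{1,0}(E₁) ⊗ H^{0,1}(E₂) + H^{0,1}(E₁) ⊗ H^{1,0}(E₂)`: the value of the regulator on `dz₁ ∧ conj(dz₂)`,
a complex number. The image of the regulator `K_1(X)^(2) → H³_H(X, ℚ(2))` is dense if the rational span of these complex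
numbers is dense in `ℂ`.

The classes used here: curves `S : y² = (t²-1)(t²-B)(t²-C)` of genus two with the function `(t-1)/(t+1)`, whose divisor is
`2 (1, 0) - 2 (-1, 0)`, and maps `S → E'`, `S → E₂` of degree two under which the points `(1, 0)` and `(-1, 0)` have the
same image; here `E'` is any elliptic curve with an isogeny to `E₁`.
-/

namespace Pool.Agent.Results.MP_b2b689_ag.ProductsOfEllipticCurves

open MeasureTheory Polynomial

open scoped ComplexConjugate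

/-- A class in `K_1(E₁ × E₂)`, where `E_i = ℂ / Λ_i` is the elliptic curve `Y² = 4 X³ - g₂ X - g₃`. The data are: an
elliptic curve `E' = ℂ / Λ` with the isogeny `z ↦ m z` to `E₁` (`m Λ ⊆ Λ₁`); the curve
`S : y² = (t² - 1)(t² - B)(t² - C)` of genus two (`0, 1, B, C` are different); the map `S → E'`,
`(t, y) ↦ (α t² + β, γ y)`; and the map `S → E₂`, `(t, y) ↦ (α' / t² + β', γ' y / t³)`. The images of the points `(1, 0)` and
`(-1, 0)` of `S` in `E' × E₂` agree, since both maps have only `t²` in the first coordinate, and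
`div ((t - 1) / (t + 1)) = 2 (1, 0) - 2 (-1, 0)` on `S`: so the push-forward of `(S, (t - 1) / (t + 1))` is a class in
`K_1(E₁ × E₂)`. -/
structure HigherCycle (Λ₁ Λ₂ : PeriodPair) where
  Λ : PeriodPair
  m : ℕ
  m_pos : 0 < m
  isogeny : ∀ l ∈ Λ.lattice, (m : ℂ) * l ∈ Λ₁.lattice
  B : ℂ
  C : ℂ
  B_ne_zero : B ≠ 0
  B_ne_one : B ≠ 1
  C_ne_zero : C ≠ 0
  C_ne_one : C ≠ 1
  B_ne_C : B ≠ C
  α : ℂ
  β : ℂ
  γ : ℂ
  α_ne_zero : α ≠ 0
  γ_ne_zero : γ ≠ 0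
  map₁ : ∀ t y : ℂ, y ^ 2 = (t ^ 2 - 1) * (t ^ 2 - B) * (t ^ 2 - C) →
    (γ * y) ^ 2 = 4 * (α * t ^ 2 + β) ^ 3 - Λ.g₂ * (α * t ^ 2 + β) - Λ.g₃
  α' : ℂ
  β' : ℂ
  γ' : ℂ
  α'_ne_zero : α' ≠ 0
  γ'_ne_zero : γ' ≠ 0
  map₂ : ∀ t y : ℂ, t ≠ 0 → y ^ 2 = (t ^ 2 - 1) * (t ^ 2 - B) * (t ^ 2 - C) →
    (γ' * y / t ^ 3) ^ 2 = 4 * (α' / t ^ 2 + β') ^ 3 - Λ₂.g₂ * (α' / t ^ 2 + β') - Λ₂.g₃

variable {Λ₁ Λ₂ : PeriodPair}

/-- The function integrated over the `t`-plane: `log |(t - 1) / (t + 1)|` times the coefficient of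
`dz₁ ∧ conj(dz₂)` on `S` with respect to `dt ∧ conj(dt)`. The pullback of `dz₁` to `S` is
`m d(α t² + β) / (γ y) = m (2 α t / γ) dt / y`, that of `dz₂` is `d(α' / t² + β') / (γ' y / t³) = (-2 α' / γ') dt / y`, and
`|y|² = |(t² - 1)(t² - B)(t² - C)|`. -/
noncomputable def HigherCycle.density (Z : HigherCycle Λ₁ Λ₂) (t : ℂ) : ℂ :=
  Real.log (‖t - 1‖ / ‖t + 1‖) * (Z.m * (2 * Z.α * t / Z.γ)) * conj (-2 * Z.α' / Z.γ') /
    ‖(t ^ 2 - 1) * (t ^ 2 - Z.B) * (t ^ 2 - Z.C)‖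

/-- The regulator `∫_S log |(t - 1) / (t + 1)| dz₁ ∧ conj(dz₂)` of the class. (`S` has two sheets over the `t`-plane, and
`dt ∧ conj(dt) = -2 i du dv` for `t = u + i v`, which gives the factor `-4 i`.) -/
noncomputable def HigherCycle.reg (Z : HigherCycle Λ₁ Λ₂) : ℂ :=
  -4 * Complex.I * ∫ t : ℂ, Z.density t

theorem density_eq (Z : HigherCycle Λ₁ Λ₂) (t : ℂ) :
    Z.density t = -4 * (Z.m * (Z.α / Z.γ * conj (Z.α' / Z.γ'))) * Run7.h153.EE.Jf Z.B Z.C t := by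
  rw [HigherCycle.density, Run7.h153.EE.Jf, Run7.h153.EE.Fs]
  simp only [map_div₀, map_mul, map_neg, Complex.conj_ofNat, Complex.ofReal_div]
  ring

theorem reg_eq (Z : HigherCycle Λ₁ Λ₂) :
    Z.reg = 16 * Complex.I * (Z.m * (Z.α / Z.γ * conj (Z.α' / Z.γ'))) * ∫ t, Run7.h153.EE.Jf Z.B Z.C t := by
  rw [HigherCycle.reg, show Z.density = fun t => -4 * (Z.m * (Z.α / Z.γ * conj (Z.α' / Z.γ'))) *
    Run7.h153.EE.Jf Z.B Z.C t from funext (density_eq Z), integral_const_mul]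
  ring

/-- the cycle of a gluing -/
noncomputable def ofGlue {L : PeriodPair} {m : ℕ} (hm : 0 < m) (hL : ∀ l ∈ L.lattice, (m : ℂ) * l ∈ Λ₁.lattice)
    {B C α β γ α' β' γ' : ℂ} (h : Run7.h153.EE.Glue L Λ₂ B C α β γ α' β' γ') : HigherCycle Λ₁ Λ₂ where
  Λ := L
  m := m
  m_pos := hm
  isogeny := hL
  B := B
  C := C
  B_ne_zero := h.1.1
  B_ne_one := h.1.2.1
  C_ne_zero := h.1.2.2.1
  C_ne_one := h.1.2.2.2.1
  B_ne_C := h.1.2.2.2.2
  α := α
  β := β
  γ := γ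
  α_ne_zero := h.2.1.1
  γ_ne_zero := h.2.1.2.1
  map₁ := h.2.2.1
  α' := α'
  β' := β'
  γ' := γ'
  α'_ne_zero := h.2.1.2.2.1
  γ'_ne_zero := h.2.1.2.2.2
  map₂ := h.2.2.2

/-- Let `E₁ = ℂ / Λ₁` and `E₂ = ℂ / Λ₂` be any two elliptic curves over `ℂ`.

(1) The integral that defines the regulator of a class `(S, (t - 1) / (t + 1))` in `K_1(E₁ × E₂)` as above converges, and the
regulator is not zero, for every such class.

(2) The rational span of the regulators of these classes is dense in `ℂ`. Together with the classes `(E₁ × pt, c)` and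
`(pt × E₂, c)` this says that the image of the regulator `K_1(E₁ × E₂)^(2) → H³_H(E₁ × E₂, ℚ(2))` is dense. (Then the same
is true for all products of several elliptic curves, since their `H^{1,1}` comes from the products of two factors.)

(3) For every hyperelliptic curve `C : y² = D(x)` of genus `g ≥ 2` (`D` squarefree of degree `2 g + 2`) and every two
different roots `e₁, e₂` of `D`, with the diagonal `Δ` and the graph `Γ` of the hyperelliptic involution in `C × C`, the class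
`(Δ, (x - e₁) / (x - e₂)) - (Γ, (x - e₁) / (x - e₂))` in `K_1(C × C)` has a regulator on
`H^{1,0}(C) ⊗ H^{0,1}(C)`, the hermitian form `∫ log |(x - e₁) / (x - e₂)| |p(x)|² / |D(x)|` on the differentials `p dx / y`,
`deg p < g` (up to a factor), which is not a real multiple of the polarization form `∫ |p(x)|² / |D(x)|`. -/
theorem result :
    (∀ (Λ₁ Λ₂ : PeriodPair) (Z : HigherCycle Λ₁ Λ₂), Integrable Z.density ∧ Z.reg ≠ 0) ∧
    (∀ Λ₁ Λ₂ : PeriodPair, Dense (Submodule.span ℚ (Set.range fun Z : HigherCycle Λ₁ Λ₂ => Z.reg) : Set ℂ)) ∧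
    ∀ (g : ℕ) (D : ℂ[X]), 2 ≤ g → Squarefree D → D.natDegree = 2 * g + 2 → ∀ e₁ e₂ : ℂ, e₁ ≠ e₂ →
      D.eval e₁ = 0 → D.eval e₂ = 0 →
      (∀ k l : ℕ, k < g → l < g → Integrable fun x : ℂ =>
        ((Real.log (‖x - e₁‖ / ‖x - e₂‖) / ‖D.eval x‖ : ℝ) : ℂ) * (x ^ k * conj (x ^ l))) ∧
      ∀ c : ℝ, ∃ p : ℂ[X], p.natDegree < g ∧
        ∫ x : ℂ, Real.log (‖x - e₁‖ / ‖x - e₂‖) * ‖p.eval x‖ ^ 2 / ‖D.eval x‖ ≠
          c * ∫ x : ℂ, ‖p.eval x‖ ^ 2 / ‖D.eval x‖ := by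
  refine ⟨fun Λ₁ Λ₂ Z => ?_, fun Λ₁ Λ₂ => ?_, Run7.h298.EE.t_H⟩
  · obtain ⟨δ, κ, K, hδ, hκ, h⟩ := Run7.h298.EE.t_D Z.B Z.C Z.B_ne_zero Z.B_ne_one Z.C_ne_zero Z.C_ne_one Z.B_ne_C
    obtain ⟨h1, h2, -⟩ := h Z.B Z.C (by simpa using hδ) (by simpa using hδ)
    refine ⟨?_, ?_⟩
    · rw [show Z.density = fun t => -4 * (Z.m * (Z.α / Z.γ * conj (Z.α' / Z.γ'))) *
        Run7.h153.EE.Jf Z.B Z.C t from funext (density_eq Z)]
      exact h1.const_mul _
    · have h3 : (∫ t, Run7.h153.EE.Jf Z.B Z.C t) ≠ 0 := by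
        intro h0
        rw [h0, Complex.zero_re] at h2
        linarith
      have h4 : (Z.m : ℂ) ≠ 0 := by exact_mod_cast Z.m_pos.ne'
      rw [reg_eq]
      refine mul_ne_zero (mul_ne_zero (mul_ne_zero (by norm_num) Complex.I_ne_zero) (mul_ne_zero h4 ?_)) h3
      exact mul_ne_zero (div_ne_zero Z.α_ne_zero Z.γ_ne_zero)
        (by rw [Ne, map_eq_zero]; exact div_ne_zero Z.α'_ne_zero Z.γ'_ne_zero)
  · obtain ⟨B, C, α, β, γ, α', β', γ', hG, L, m, B₁, C₁, α₁, β₁, γ₁, α₁', β₁', γ₁', hm, hL, hG₁, hlt⟩ :=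
      Run7.h153.EE.asm Run7.h153.EE.t_A Run7.h819.EE.t_B Run7.h298.EE.t_D Λ₁ Λ₂
    set Z : HigherCycle Λ₁ Λ₂ := ofGlue (m := 1) one_pos (fun l hl => by simpa using hl) hG with hZ
    set W : HigherCycle Λ₁ Λ₂ := ofGlue hm hL hG₁ with hW
    have hZr : Z.reg = 16 * Complex.I * (α / γ * conj (α' / γ') * ∫ t, Run7.h153.EE.Jf B C t) := by
      rw [reg_eq, hZ]
      simp only [ofGlue, Nat.cast_one, one_mul]
      ring
    have hWr : W.reg = 16 * Complex.I *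
        (m * (α₁ / γ₁ * conj (α₁' / γ₁') * ∫ t, Run7.h153.EE.Jf B₁ C₁ t)) := by
      rw [reg_eq, hW]
      simp only [ofGlue]
      ring
    have him : (W.reg * conj Z.reg).im ≠ 0 := by
      have h1 : W.reg * conj Z.reg = ((256 * m : ℝ) : ℂ) * (α₁ / γ₁ * conj (α₁' / γ₁') *
          (∫ t, Run7.h153.EE.Jf B₁ C₁ t) * conj (α / γ * conj (α' / γ') * ∫ t, Run7.h153.EE.Jf B C t)) := by
        rw [hZr, hWr]
        simp only [map_mul, Complex.conj_I, Complex.conj_ofNat, Complex.ofReal_mul, Complex.ofReal_ofNat,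
          Complex.ofReal_natCast]
        linear_combination (-256 * (m * (α₁ / γ₁ * conj (α₁' / γ₁') * ∫ t, Run7.h153.EE.Jf B₁ C₁ t)) *
          (conj (α / γ) * conj (conj (α' / γ')) * conj (∫ t, Run7.h153.EE.Jf B C t))) * Complex.I_sq
      rw [h1, Complex.im_ofReal_mul]
      have h2 : (0 : ℝ) < 256 * m := by
        have : (0 : ℝ) < m := by exact_mod_cast hm
        positivity
      exact mul_ne_zero h2.ne' hlt.ne
    refine (Run7.h153.EE.dense_pair him).mono ?_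
    rw [SetLike.coe_subset_coe]
    refine Submodule.span_mono ?_
    rintro z (rfl | rfl)
    · exact ⟨Z, rfl⟩
    · exact ⟨W, rfl⟩

end Pool.Agent.Results.MP_b2b689_ag.ProductsOfEllipticCurves
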